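import Pool.Agent.V11298.BK.Heavy

/-!
# Subgraphs of planar graphs dominated by few vertices
-/

set_option autoImplicit false
set_option linter.unusedSectionVars false

namespace Pool.Agent.V11298.BK

open Finset Polynomial Pool.Agent.H207R2.BL Pool.Agent.Y865.RF
open Pool.Agent.Y655.RF (EE NN mem_EE mem_NN card_EE mader)

/-- `G` is a subgraph of `G' - K`, where `G'` has no weak `K₅` and every vertex of `G` is in `U` or has a
neighbour in `K`, `|K| ≤ k`, `|U| ≤ j`. -/
def CK (k j : ℕ) (V : Type) (G : SimpleGraph V) : Prop :=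
  ∃ (W : Type) (_ : Finite W) (G' : SimpleGraph W) (f : V → W) (K U : Set W), Function.Injective f ∧
    ¬ WK W G' ∧ (∀ u v, G.Adj u v → G'.Adj (f u) (f v)) ∧ K.ncard ≤ k ∧ U.ncard ≤ j ∧ (∀ v, f v ∉ K) ∧
    ∀ v, f v ∈ U ∨ ∃ x ∈ K, G'.Adj (f v) x

theorem ncard_sub {W : Type} [Finite W] (w : W) (K : Set W) :
    ({x : {x : W // x ≠ w} | x.1 ∈ K}).ncard ≤ K.ncard := by
  rw [← Set.ncard_image_of_injective _ Subtype.val_injective]
  refine Set.ncard_le_ncard ?_ (Set.toFinite _)
  rintro _ ⟨x, hx, rfl⟩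
  exact hx

theorem ck_closed (k j : ℕ) : MinorClosed (CK k j) := by
  refine ⟨?_, ?_, ?_⟩
  · rintro V G H hHG ⟨W, hW, G', f, K, U, h1, h2, h3, h4, h5, h6, h7⟩
    exact ⟨W, hW, G', f, K, U, h1, h2, fun u v h => h3 u v (hHG h), h4, h5, h6, h7⟩
  · rintro V G v ⟨W, hW, G', f, K, U, h1, h2, h3, h4, h5, h6, h7⟩
    exact ⟨W, hW, G', fun x => f x.1, K, U, fun x y h => Subtype.ext (h1 h), h2, fun x y h => h3 _ _ h, h4, h5,
      fun x => h6 x.1, fun x => h7 x.1⟩
  · rintro V G u v huv ⟨W, hW, G', f, K, U, h1, h2, h3, h4, h5, h6, h7⟩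
    refine ⟨{x : W // x ≠ f v}, inferInstance, contract G' (f u) (f v), fun x => ⟨f x.1, fun h => x.2 (h1 h)⟩,
      {x | x.1 ∈ K}, {x | x.1 ∈ U}, ?_, ?_, ?_, (ncard_sub _ K).trans h4, (ncard_sub _ U).trans h5,
      fun x => h6 x.1, ?_⟩
    · intro x y h
      exact Subtype.ext (h1 (congrArg Subtype.val h))
    · exact mc.contr W G' (f u) (f v) (h3 u v huv) h2
    · rintro x y ⟨hne, h | ⟨hx, h⟩ | ⟨hy, h⟩⟩
      · exact ⟨fun h' => hne (Subtype.ext (h1 (congrArg Subtype.val h'))), Or.inl (h3 _ _ h)⟩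
      · exact ⟨fun h' => hne (Subtype.ext (h1 (congrArg Subtype.val h'))), Or.inr (Or.inl ⟨congrArg f hx, h3 _ _ h⟩)⟩
      · exact ⟨fun h' => hne (Subtype.ext (h1 (congrArg Subtype.val h'))), Or.inr (Or.inr ⟨congrArg f hy, h3 _ _ h⟩)⟩
    · intro x
      rcases h7 x.1 with h | ⟨z, hz, hxz⟩
      · exact Or.inl h
      · refine Or.inr ⟨⟨z, fun h => h6 v (h ▸ hz)⟩, hz, ?_, Or.inl hxz⟩
        intro h
        exact hxz.ne (congrArg Subtype.val h)

theorem wk_emb {V W : Type} {G : SimpleGraph V} {G' : SimpleGraph W} (f : V → W) (h1 : Function.Injective f)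
    (h3 : ∀ u v, G.Adj u v → G'.Adj (f u) (f v)) (h2 : ¬ WK W G') : ¬ WK V G := by
  intro hK
  apply h2
  obtain ⟨x, A, ha, hd⟩ := hK
  refine ⟨fun i => f (x i), fun a b => f '' (A a b), ?_, ?_⟩
  · intro a b hab
    exact Cn.transport f (fun y z hy hz hyz => Cn.adj (h3 y z hyz) (Set.mem_image_of_mem f hy)
      (Set.mem_image_of_mem f hz)) (fun y hy => Set.mem_image_of_mem f hy) (ha a b hab)
  · intro a b c d h4 h5 h6 h7 h8 h9
    exact (Set.disjoint_image_iff h1).2 (hd a b c d h4 h5 h6 h7 h8 h9)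

theorem ck_wk {k j : ℕ} {V : Type} {G : SimpleGraph V} (h : CK k j V G) : ¬ WK V G := by
  obtain ⟨W, hW, G', f, K, U, h1, h2, h3, -⟩ := h
  exact wk_emb f h1 h3 h2

theorem ck_deg (k j : ℕ) (V : Type) [Finite V] [Nonempty V] (G : SimpleGraph V) (hG : CK k j V G) :
    (∃ v, (G.neighborSet v).ncard ≤ 4) ∨ Nat.card V + 12 ≤ 2 * j + 6 * k := by
  classical
  obtain ⟨W, hW, G', f, K, U, h1, h2, h3, h4, h5, h6, h7⟩ := hG
  by_contra hcon
  push Not at hcon
  obtain ⟨hdeg, hcard⟩ := hcon
  have : Fintype V := Fintype.ofFinite V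
  have : Fintype W := Fintype.ofFinite W
  rw [Nat.card_eq_fintype_card] at hcard
  obtain ⟨v0⟩ := ‹Nonempty V›
  -- the set of vertices
  set F : Finset W := univ.image f with hF
  set KF : Finset W := univ.filter (fun x => x ∈ K) with hKF
  have hKc : KF.card = K.ncard := by
    rw [← Set.ncard_coe_finset]
    congr 1
    ext x
    simp [hKF]
  have hFc : F.card = Fintype.card V := by
    rw [hF, card_image_of_injective _ h1, card_univ]
  have hdisj : Disjoint F KF := by
    rw [disjoint_left]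
    intro x hx hk
    rw [hF, mem_image] at hx
    obtain ⟨v, -, rfl⟩ := hx
    rw [hKF, mem_filter] at hk
    exact h6 v hk.2
  set S : Finset W := F ∪ KF with hS
  have hSc : S.card = Fintype.card V + K.ncard := by
    rw [hS, card_union_of_disjoint hdisj, hFc, hKc]
  let L : SimpleGraph W :=
    { Adj := fun x y => G'.Adj x y ∧ x ∈ S ∧ y ∈ S
      symm := ⟨fun x y h => ⟨h.1.symm, h.2.2, h.2.1⟩⟩
      loopless := ⟨fun x h => G'.loopless.irrefl x h.1⟩ }
  have hLG : L ≤ G' := fun x y h => h.1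
  have hIn : Pool.Agent.Y655.RF.In S L := fun x y h => h.2
  -- dominated vertices
  set D : Finset V := univ.filter (fun v => f v ∉ U) with hD
  have hDc : Fintype.card V ≤ D.card + j := by
    have e1 : (univ.filter (fun v => f v ∈ U)).card ≤ j := by
      refine le_trans ?_ h5
      have e2 : (univ.filter (fun v => f v ∈ U)).card = ((univ.filter (fun v => f v ∈ U)).image f).card :=
        (card_image_of_injective _ h1).symm
      rw [e2, ← Set.ncard_coe_finset]
      refine Set.ncard_le_ncard ?_ (Set.toFinite _)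
      intro x hx
      rw [coe_image] at hx
      obtain ⟨v, hv, rfl⟩ := hx
      simpa using hv
    have e3 : (univ.filter (fun v => f v ∈ U)).card + (univ.filter (fun v => ¬ f v ∈ U)).card =
        (univ : Finset V).card := card_filter_add_card_filter_not _
    rw [card_univ] at e3
    have e4 : D.card = (univ.filter (fun v => ¬ f v ∈ U)).card := rfl
    omega
  have hc : ∀ v : V, ∃ x : W, f v ∉ U → (x ∈ K ∧ G'.Adj (f v) x) := by
    intro v
    by_cases hv : f v ∈ U
    · exact ⟨f v, fun h => absurd hv h⟩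
    · rcases h7 v with h | ⟨x, hx, hx'⟩
      · exact absurd h hv
      · exact ⟨x, fun _ => ⟨hx, hx'⟩⟩
  choose c hc using hc
  set A : Finset (W × W) := (EE G).image (fun p => (f p.1, f p.2)) with hA
  set B1 : Finset (W × W) := D.image (fun v => (f v, c v)) with hB1
  set B2 : Finset (W × W) := D.image (fun v => (c v, f v)) with hB2
  have hAc : A.card = (EE G).card := by
    refine card_image_of_injective _ ?_
    rintro ⟨a, b⟩ ⟨a', b'⟩ h
    simp only [Prod.mk.injEq] at h ⊢
    exact ⟨h1 h.1, h1 h.2⟩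
  have hB1c : B1.card = D.card := by
    refine card_image_of_injective _ ?_
    intro a b h
    exact h1 (Prod.mk.inj h).1
  have hB2c : B2.card = D.card := by
    refine card_image_of_injective _ ?_
    intro a b h
    exact h1 (Prod.mk.inj h).2
  have hd1 : Disjoint A B1 := by
    rw [disjoint_left]
    intro p hp hp'
    rw [hA, mem_image] at hp
    rw [hB1, mem_image] at hp'
    obtain ⟨q, -, hq⟩ := hp
    obtain ⟨v, hv, hv'⟩ := hp'
    have hvU := (mem_filter.1 hv).2
    have e1 := (hc v hvU).1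
    rw [← hq] at hv'
    have e2 : c v = f q.2 := (Prod.mk.inj hv').2
    rw [e2] at e1
    exact h6 _ e1
  have hd2 : Disjoint (A ∪ B1) B2 := by
    rw [disjoint_left]
    intro p hp hp'
    rw [hB2, mem_image] at hp'
    obtain ⟨v, hv, hv'⟩ := hp'
    have hvU := (mem_filter.1 hv).2
    have e1 := (hc v hvU).1
    rw [mem_union, hA, hB1, mem_image, mem_image] at hp
    rcases hp with ⟨q, -, hq⟩ | ⟨w, -, hw⟩
    · rw [← hq] at hv'
      have e2 : c v = f q.1 := (Prod.mk.inj hv').1
      rw [e2] at e1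
      exact h6 _ e1
    · rw [← hw] at hv'
      have e2 : c v = f w := (Prod.mk.inj hv').1
      rw [e2] at e1
      exact h6 _ e1
  have hmF : ∀ v, f v ∈ S := fun v => mem_union_left _ (mem_image_of_mem f (mem_univ v))
  have hsub : (A ∪ B1) ∪ B2 ⊆ EE L := by
    intro p hp
    rw [mem_union, mem_union, hA, hB1, hB2, mem_image, mem_image, mem_image] at hp
    rw [mem_EE]
    have hcK : ∀ v ∈ D, c v ∈ S ∧ G'.Adj (f v) (c v) := by
      intro v hv
      have e1 := hc v (mem_filter.1 hv).2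
      exact ⟨mem_union_right _ (mem_filter.2 ⟨mem_univ _, e1.1⟩), e1.2⟩
    rcases hp with (⟨q, hq, rfl⟩ | ⟨v, hv, rfl⟩) | ⟨v, hv, rfl⟩
    · exact ⟨h3 _ _ (mem_EE.1 hq), hmF _, hmF _⟩
    · exact ⟨(hcK v hv).2, hmF _, (hcK v hv).1⟩
    · exact ⟨(hcK v hv).2.symm, (hcK v hv).1, hmF _⟩
  have hEc : (EE G).card + 2 * D.card ≤ (EE L).card := by
    have e1 := card_le_card hsub
    rw [card_union_of_disjoint hd2, card_union_of_disjoint hd1, hAc, hB1c, hB2c] at e1
    omega
  -- degrees
  have hN : ∀ v, 5 ≤ (NN G v).card := by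
    intro v
    have e1 := hdeg v
    have e2 : (G.neighborSet v) = ((NN G v : Finset V) : Set V) := by
      ext y
      rw [SimpleGraph.mem_neighborSet, mem_coe, mem_NN]
    rw [e2, Set.ncard_coe_finset] at e1
    exact e1
  have hInG : Pool.Agent.Y655.RF.In (univ : Finset V) G := fun x y _ => ⟨mem_univ _, mem_univ _⟩
  have e5 := card_EE hInG
  have e6 : ∑ _x ∈ (univ : Finset V), 5 ≤ ∑ x ∈ (univ : Finset V), (NN G x).card :=
    sum_le_sum fun x _ => hN x
  rw [sum_const, smul_eq_mul, card_univ, ← e5] at e6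
  have hev : 2 ∣ (EE L).card := by
    have hInL : Pool.Agent.Y655.RF.In (univ : Finset W) L := fun x y _ => ⟨mem_univ _, mem_univ _⟩
    rw [card_EE hInL]
    have e7 : ∀ x, (NN L x).card = L.degree x := by
      intro x
      rw [← SimpleGraph.card_neighborFinset_eq_degree]
      congr 1
      ext y
      rw [mem_NN, SimpleGraph.mem_neighborFinset]
    rw [sum_congr rfl fun x _ => e7 x, SimpleGraph.sum_degrees_eq_twice_card_edges]
    exact dvd_mul_right _ _
  have hn6 : 6 ≤ Fintype.card V := by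
    have e7 : insert v0 (NN G v0) ⊆ (univ : Finset V) := subset_univ _
    have e8 := card_le_card e7
    rw [card_insert_of_notMem (fun h => (mem_NN.1 h).ne rfl), card_univ] at e8
    have := hN v0
    omega
  obtain ⟨x, A', k1, k2, -⟩ := mader _ S L rfl hIn (by omega) (by omega)
  exact h2 (wk_le hLG ⟨x, A', k1, k2⟩)

theorem ck_pos {k j : ℕ} {q : ℝ} (hq : Rng (2 * j + 6 * k - 12) q) {V : Type} [Finite V] (G : SimpleGraph V)
    (hG : CK k j V G) : 0 < (chr G).eval q := by
  refine minor_pos_gen (CK k j) (ck_closed k j) 4 q (by exact_mod_cast hq.1) ?_ G hG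
  intro V _ _ G hG
  rcases ck_deg k j V G hG with h | h
  · exact Or.inl h
  · exact Or.inr (pos_of_card hq G (ck_wk hG) (by omega))

end Pool.Agent.V11298.BK
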