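import Pool.Agent.Y865.RF.Fin
import Pool.Agent.H207R2.BL.Minor
import Pool.Agent.Y406.SP.Small

/-!
# Positivity of the chromatic polynomial from the minors of minimum degree at least five
-/

set_option autoImplicit false
set_option linter.unusedSectionVars false

namespace Pool.Agent.V11298.BK

open Polynomial Pool.Agent.H207R2.BL Pool.Agent.Y865.RF

/-- Every minor of `G` with more than `N` vertices has a vertex of degree at most `d`: whenever `m > N` pairwise
disjoint connected sets of vertices are given, one of them is joined by edges of `G` to at most `d` of the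
others. -/
def HeavyLe (N d : ℕ) {V : Type} (G : SimpleGraph V) : Prop :=
  ∀ (m : ℕ) (B : Fin m → Set V), N < m → (∀ i, ConnSet G (B i)) →
    (∀ i j, i ≠ j → Disjoint (B i) (B j)) →
    ∃ i, {j | j ≠ i ∧ ∃ x ∈ B i, ∃ y ∈ B j, G.Adj x y}.ncard ≤ d

/-- **Woodall, Thomassen**: positivity for `q > d`. -/
theorem minor_pos_gen (𝒞 : ∀ V : Type, SimpleGraph V → Prop) (h𝒞 : MinorClosed 𝒞) (d : ℕ)
    (q : ℝ) (hq : (d : ℝ) < q)
    (hdeg : ∀ (V : Type) [Finite V] [Nonempty V] (G : SimpleGraph V), 𝒞 V G →
      (∃ v, (G.neighborSet v).ncard ≤ d) ∨ 0 < (chr G).eval q) {V : Type} [Finite V] (G : SimpleGraph V) (hG : 𝒞 V G) :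
    0 < (chr G).eval q := by
  classical
  induction hN : Nat.card V using Nat.strong_induction_on generalizing V with
  | _ N ih =>
    subst hN
    rcases isEmpty_or_nonempty V with he | hne
    · have h1 : chr G = 1 := by
        refine (eq_chr (p := (1 : ℝ[X])) ?_).symm
        intro k
        rw [card_colorings]
        have : Nat.card {g : V → Fin k // Proper G g} = 1 := by
          rw [Nat.card_eq_one_iff_unique]
          refine ⟨⟨fun a b => Subtype.ext (funext fun x => (he.false x).elim)⟩,
            ⟨fun x => (he.false x).elim, fun a => (he.false a).elim⟩⟩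
        rw [this]
        simp
      rw [h1]
      simp
    · rcases hdeg V G hG with ⟨v, hv⟩ | hyes
      swap
      · exact hyes
      have hcard : ∀ w : V, Nat.card {x : V // x ≠ w} < Nat.card V := by
        intro w
        have : Fintype V := Fintype.ofFinite V
        rw [Nat.card_eq_fintype_card, Nat.card_eq_fintype_card]
        exact Fintype.card_subtype_lt (p := fun x => x ≠ w) (x := w) (by simp)
      have hpos : ∀ (w : V) (K : SimpleGraph {x : V // x ≠ w}), 𝒞 _ K → 0 < (chr K).eval q :=
        fun w K hK => ih _ (hcard w) K hK rfl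
      set H : SimpleGraph {x : V // x ≠ v} := G.comap Subtype.val with hH
      have hHC : 𝒞 _ H := h𝒞.vertex V G v hG
      have hHpos := hpos v H hHC
      have hkeepC : ∀ S, 𝒞 V (keep G v S) := fun S =>
        h𝒞.edge V G _ (fun _ _ h => h.1) hG
      have key : ∀ S : Finset V, (∀ x ∈ S, G.Adj v x) →
          (q - S.card) * (chr H).eval q ≤ (chr (keep G v (S : Set V))).eval q := by
        intro S
        induction S using Finset.induction_on with
        | empty =>
          intro _
          have h1 := chr_isolated (keep G v ((∅ : Finset V) : Set V)) v (by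
            intro x h
            have := h.2.1 rfl
            simp at this)
          have h2 : (keep G v ((∅ : Finset V) : Set V)).comap
              (Subtype.val : {x : V // x ≠ v} → V) = H := by
            ext x y
            constructor
            · intro h
              exact h.1
            · intro h
              exact ⟨h, fun h' => absurd h' x.2, fun h' => absurd h' y.2⟩
          rw [h1, h2]
          simp
        | insert u S hu ihS =>
          intro hS
          have hGu : G.Adj v u := hS u (Finset.mem_insert_self u S)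
          have ih' := ihS (fun x hx => hS x (Finset.mem_insert_of_mem hx))
          have huv : u ≠ v := hGu.ne'
          have h2 := del_con (keep G v ((insert u S : Finset V) : Set V))
            (keep G v (S : Set V)) u v huv (by
              intro h
              exact hu (by simpa using h.2.1 rfl)) (by
              intro x y
              constructor
              · rintro ⟨h3, h4, h5⟩
                by_cases hx : x = v
                · subst hx
                  have h6 := h4 rfl
                  rw [Finset.coe_insert, Set.mem_insert_iff] at h6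
                  rcases h6 with h6 | h6
                  · exact Or.inr (Or.inr ⟨rfl, h6⟩)
                  · exact Or.inl ⟨h3, fun _ => h6, fun h => absurd h h3.ne'⟩
                · by_cases hy : y = v
                  · subst hy
                    have h6 := h5 rfl
                    rw [Finset.coe_insert, Set.mem_insert_iff] at h6
                    rcases h6 with h6 | h6
                    · exact Or.inr (Or.inl ⟨h6, rfl⟩)
                    · exact Or.inl ⟨h3, fun h => absurd h hx, fun _ => h6⟩
                  · exact Or.inl ⟨h3, fun h => absurd h hx, fun h => absurd h hy⟩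
              · rintro (⟨h3, h4, h5⟩ | ⟨rfl, rfl⟩ | ⟨rfl, rfl⟩)
                · refine ⟨h3, fun h => ?_, fun h => ?_⟩
                  · rw [Finset.coe_insert]
                    exact Set.mem_insert_of_mem _ (h4 h)
                  · rw [Finset.coe_insert]
                    exact Set.mem_insert_of_mem _ (h5 h)
                · refine ⟨hGu.symm, fun h => absurd h huv, fun _ => ?_⟩
                  simp
                · refine ⟨hGu, fun _ => ?_, fun h => absurd h huv⟩
                  simp)
          have h3 := congrArg (Polynomial.eval q) h2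
          rw [Polynomial.eval_add] at h3
          -- the contracted graph contains `H`
          have h4 : H ≤ contract (keep G v (S : Set V)) u v := by
            intro x y h
            refine ⟨fun h' => h.ne h', Or.inl ⟨h, fun h' => absurd h' x.2, fun h' => absurd h' y.2⟩⟩
          have h5 : 𝒞 _ (contract (keep G v (S : Set V)) u v) := by
            refine h𝒞.edge _ (contract (keep G v ((insert u S : Finset V) : Set V)) u v) _
              (contract_mono ?_ u v) ?_
            · rintro _ _ ⟨a1, a2, a3⟩
              refine ⟨a1, fun h => ?_, fun h => ?_⟩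
              · rw [Finset.coe_insert]
                exact Set.mem_insert_of_mem _ (a2 h)
              · rw [Finset.coe_insert]
                exact Set.mem_insert_of_mem _ (a3 h)
            · refine h𝒞.contr _ _ u v ?_ (hkeepC _)
              refine ⟨hGu.symm, fun h => absurd h huv, fun _ => ?_⟩
              simp
          have h6 : (chr (contract (keep G v (S : Set V)) u v)).eval q ≤ (chr H).eval q := by
            apply chr_anti 𝒞 h𝒞 q _ H _ h4 h5
            intro w K hK
            have hc1 : Nat.card {x : {x : V // x ≠ v} // x ≠ w} < Nat.card V := by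
              refine lt_trans ?_ (hcard v)
              have : Fintype {x : V // x ≠ v} := Fintype.ofFinite _
              rw [Nat.card_eq_fintype_card, Nat.card_eq_fintype_card]
              exact Fintype.card_subtype_lt (p := fun x => x ≠ w) (x := w) (by simp)
            exact ih _ hc1 K hK rfl
          have h7 : (q - ((insert u S : Finset V).card : ℝ)) * (chr H).eval q =
              (q - S.card) * (chr H).eval q - (chr H).eval q := by
            rw [Finset.card_insert_of_notMem hu, Nat.cast_add, Nat.cast_one]
            ring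
          linarith
      have hfin : (G.neighborSet v).Finite := Set.toFinite _
      have h7 := key hfin.toFinset (by
        intro x hx
        simpa using hx)
      have h8 : keep G v (hfin.toFinset : Set V) = G := by
        ext x y
        constructor
        · intro h
          exact h.1
        · intro h
          refine ⟨h, fun h' => ?_, fun h' => ?_⟩
          · subst h'
            simpa using h
          · subst h'
            simpa using h.symm
      rw [h8] at h7
      have h9 : (hfin.toFinset.card : ℝ) ≤ d := by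
        rw [← Set.ncard_eq_toFinset_card _ hfin]
        exact_mod_cast hv
      have h10 : 0 < (q - hfin.toFinset.card) * (chr H).eval q := by
        apply mul_pos _ hHpos
        linarith
      linarith

theorem heavy_edge (N d : ℕ) {V : Type} (G H : SimpleGraph V) (h : H ≤ G)
    (hG : HeavyLe N d G) : HeavyLe N d H := by
  intro m B hm hB hd
  obtain ⟨i, hi⟩ := hG m B hm (fun i => ⟨(hB i).1, fun x hx y hy => by
    obtain ⟨w, hw⟩ := (hB i).2 x hx y hy
    exact ⟨w.mapLe h, by rwa [SimpleGraph.Walk.support_mapLe_eq_support]⟩⟩) hd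
  refine ⟨i, le_trans (Set.ncard_le_ncard ?_ (Set.toFinite _)) hi⟩
  rintro j ⟨hj, x, hx, y, hy, hxy⟩
  exact ⟨hj, x, hx, y, hy, h hxy⟩

theorem heavy_vertex (N d : ℕ) {V : Type} (G : SimpleGraph V) (v : V)
    (hG : HeavyLe N d G) :
    HeavyLe N d (G.comap (Subtype.val : {x : V // x ≠ v} → V)) := by
  intro m B hm hB hd
  have hc : ∀ i, ConnSet G (Subtype.val '' (B i)) := by
    intro i
    refine ⟨(hB i).1.image _, ?_⟩
    rintro _ ⟨x, hx, rfl⟩ _ ⟨y, hy, rfl⟩
    obtain ⟨w, hw⟩ := (hB i).2 x hx y hy
    let φ : G.comap (Subtype.val : {x : V // x ≠ v} → V) →g G := ⟨Subtype.val, fun h => h⟩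
    refine ⟨w.map φ, ?_⟩
    intro z hz
    rw [SimpleGraph.Walk.support_map, List.mem_map] at hz
    obtain ⟨z', hz', rfl⟩ := hz
    exact ⟨z', hw z' hz', rfl⟩
  have hd' : ∀ i j, i ≠ j → Disjoint (Subtype.val '' (B i)) (Subtype.val '' (B j)) := by
    intro i j hij
    exact (Set.disjoint_image_iff Subtype.val_injective).2 (hd i j hij)
  obtain ⟨i, hi⟩ := hG m (fun i => Subtype.val '' (B i)) hm hc hd'
  refine ⟨i, le_trans (Set.ncard_le_ncard ?_ (Set.toFinite _)) hi⟩
  rintro j ⟨hj, x, hx, y, hy, hxy⟩
  exact ⟨hj, x.1, ⟨x, hx, rfl⟩, y.1, ⟨y, hy, rfl⟩, hxy⟩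

theorem heavy_contr (N d : ℕ) {V : Type} (G : SimpleGraph V) (u v : V) (huv : G.Adj u v)
    (hG : HeavyLe N d G) : HeavyLe N d (contract G u v) := by
  intro m B hm hB hd
  let L : Fin m → Set V := fun i =>
    Subtype.val '' (B i) ∪ {x | x = v ∧ (⟨u, huv.ne⟩ : {x : V // x ≠ v}) ∈ B i}
  have hv : ∀ i x, x ∈ B i → x.1 ∈ L i := fun i x hx => Or.inl ⟨x, hx, rfl⟩
  have hvu : ∀ i, u ∈ L i → v ∈ L i := by
    rintro i (⟨x, hx, hxu⟩ | ⟨h, _⟩)
    · refine Or.inr ⟨rfl, ?_⟩
      have : (⟨u, huv.ne⟩ : {x : V // x ≠ v}) = x := Subtype.ext hxu.symm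
      rw [this]
      exact hx
    · exact absurd h huv.ne
  -- transport of walks
  have hwalk : ∀ i (x y : {x : V // x ≠ v}) (w : (contract G u v).Walk x y),
      (∀ z ∈ w.support, z ∈ B i) → ∃ w' : G.Walk x.1 y.1, ∀ z ∈ w'.support, z ∈ L i := by
    intro i x y w
    induction w with
    | nil =>
      intro h
      refine ⟨SimpleGraph.Walk.nil, ?_⟩
      intro z hz
      simp only [SimpleGraph.Walk.support_nil, List.mem_singleton] at hz
      rw [hz]
      exact hv i _ (h _ (by simp))
    | @cons a b c hab w ih =>
      intro h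
      have ha : a ∈ B i := h a (by simp)
      have hb : b ∈ B i := h b (by simp)
      obtain ⟨w', hw'⟩ := ih (fun z hz => h z (by simp [hz]))
      rcases hab with ⟨_, h1 | ⟨h1, h2⟩ | ⟨h1, h2⟩⟩
      · refine ⟨SimpleGraph.Walk.cons h1 w', ?_⟩
        intro z hz
        rw [SimpleGraph.Walk.support_cons, List.mem_cons] at hz
        rcases hz with rfl | hz
        · exact hv i a ha
        · exact hw' z hz
      · have hu : u ∈ L i := h1 ▸ hv i a ha
        have h3 : G.Adj a.1 v := h1 ▸ huv
        refine ⟨SimpleGraph.Walk.cons h3 (SimpleGraph.Walk.cons h2 w'), ?_⟩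
        intro z hz
        rw [SimpleGraph.Walk.support_cons, List.mem_cons, SimpleGraph.Walk.support_cons,
          List.mem_cons] at hz
        rcases hz with rfl | rfl | hz
        · exact hv i a ha
        · exact hvu i hu
        · exact hw' z hz
      · have hu : u ∈ L i := h1 ▸ hv i b hb
        have h3 : G.Adj v b.1 := by
          rw [h1]
          exact huv.symm
        refine ⟨SimpleGraph.Walk.cons h2.symm (SimpleGraph.Walk.cons h3 w'), ?_⟩
        intro z hz
        rw [SimpleGraph.Walk.support_cons, List.mem_cons, SimpleGraph.Walk.support_cons,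
          List.mem_cons] at hz
        rcases hz with rfl | rfl | hz
        · exact hv i a ha
        · exact hvu i hu
        · exact hw' z hz
  have hc : ∀ i, ConnSet G (L i) := by
    intro i
    obtain ⟨x0, hx0⟩ := (hB i).1
    refine ⟨⟨x0.1, hv i x0 hx0⟩, ?_⟩
    have base : ∀ x ∈ L i, ∃ w : G.Walk x x0.1, ∀ z ∈ w.support, z ∈ L i := by
      rintro x (⟨x, hx, rfl⟩ | ⟨rfl, hx⟩)
      · obtain ⟨w, hw⟩ := (hB i).2 x hx x0 hx0
        exact hwalk i x x0 w hw
      · obtain ⟨w, hw⟩ := (hB i).2 _ hx x0 hx0
        obtain ⟨w', hw'⟩ := hwalk i _ x0 w hw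
        refine ⟨SimpleGraph.Walk.cons huv.symm w', ?_⟩
        intro z hz
        rw [SimpleGraph.Walk.support_cons, List.mem_cons] at hz
        rcases hz with rfl | hz
        · exact Or.inr ⟨rfl, hx⟩
        · exact hw' z hz
    intro x hx y hy
    obtain ⟨w1, hw1⟩ := base x hx
    obtain ⟨w2, hw2⟩ := base y hy
    refine ⟨w1.append w2.reverse, ?_⟩
    intro z hz
    rw [SimpleGraph.Walk.mem_support_append_iff, SimpleGraph.Walk.support_reverse,
      List.mem_reverse] at hz
    rcases hz with hz | hz
    · exact hw1 z hz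
    · exact hw2 z hz
  have hd' : ∀ i j, i ≠ j → Disjoint (L i) (L j) := by
    intro i j hij
    rw [Set.disjoint_left]
    rintro x (⟨x, hx, rfl⟩ | ⟨rfl, hx⟩) (⟨y, hy, hxy⟩ | ⟨h1, hy⟩)
    · have : y = x := Subtype.ext hxy
      subst this
      exact Set.disjoint_left.1 (hd i j hij) hx hy
    · exact x.2 h1
    · exact y.2 hxy
    · exact Set.disjoint_left.1 (hd i j hij) hx hy
  obtain ⟨i, hi⟩ := hG m L hm hc hd'
  refine ⟨i, le_trans (Set.ncard_le_ncard ?_ (Set.toFinite _)) hi⟩
  rintro j ⟨hj, x, hx, y, hy, _, h1 | ⟨h1, h2⟩ | ⟨h1, h2⟩⟩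
  · exact ⟨hj, x.1, hv i x hx, y.1, hv j y hy, h1⟩
  · exact ⟨hj, v, hvu i (h1 ▸ hv i x hx), y.1, hv j y hy, h2⟩
  · exact ⟨hj, x.1, hv i x hx, v, hvu j (h1 ▸ hv j y hy), h2.symm⟩


theorem heavy_exists (N d : ℕ) {V : Type} [Finite V] (G : SimpleGraph V) (hN : N < Nat.card V)
    (hG : HeavyLe N d G) : ∃ v, (G.neighborSet v).ncard ≤ d := by
  classical
  have : Fintype V := Fintype.ofFinite V
  rw [Nat.card_eq_fintype_card] at hN
  let e : Fin (Fintype.card V) ≃ V := (Fintype.equivFin V).symm
  obtain ⟨i, hi⟩ := hG (Fintype.card V) (fun i => {e i}) hN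
    (fun i => ⟨⟨e i, rfl⟩, by
      intro x hx y hy
      rw [Set.mem_singleton_iff] at hx hy
      subst hx
      subst hy
      exact ⟨SimpleGraph.Walk.nil, by simp⟩⟩)
    (fun i j hij => by
      rw [Set.disjoint_singleton]
      exact fun h => hij (e.injective h))
  refine ⟨e i, ?_⟩
  have h1 : G.neighborSet (e i) =
      e '' {j | j ≠ i ∧ ∃ x ∈ ({e i} : Set V), ∃ y ∈ ({e j} : Set V), G.Adj x y} := by
    ext y
    constructor
    · intro hy
      have hy' : G.Adj (e i) y := hy
      refine ⟨e.symm y, ⟨?_, e i, rfl, y, by simp, hy'⟩, by simp⟩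
      intro h
      rw [← h] at hy'
      simp at hy'
    · rintro ⟨j, ⟨_, x, hx, z, hz, hxz⟩, rfl⟩
      rw [Set.mem_singleton_iff] at hx hz
      subst hx
      subst hz
      exact hxz
  rw [h1, Set.ncard_image_of_injective _ e.injective]
  exact hi

/-- `q` is in the range for graphs with at most `N` vertices -/
def Rng (N : ℕ) (q : ℝ) : Prop := 4 < q ∧ (N ≤ 11 ∨ 5 - 1 / (N : ℝ) < q)

theorem pos_of_card {N : ℕ} {q : ℝ} (hq : Rng N q) {V : Type} [Finite V] (G : SimpleGraph V)
    (hW : ¬ WK V G) (hN : Nat.card V ≤ N) : 0 < (chr G).eval q := by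
  rcases hq with ⟨h4, h11 | h5⟩
  · exact Pool.Agent.Y406.SP.small_pos V G hW (hN.trans h11) q h4
  · rcases Nat.eq_zero_or_pos (Nat.card V) with h0 | h0
    · exact Pool.Agent.Y406.SP.small_pos V G hW (by omega) q h4
    · refine (final G hW (chr G) (chr_spec G)).1 q ?_
      have h1 : (0 : ℝ) < Nat.card V := by exact_mod_cast h0
      have h2 : ((Nat.card V : ℕ) : ℝ) ≤ N := by exact_mod_cast hN
      have h3 : 1 / (N : ℝ) ≤ 1 / (Nat.card V : ℝ) := one_div_le_one_div_of_le h1 h2
      linarith

theorem heavy_pos {N : ℕ} {q : ℝ} (hq : Rng N q) {V : Type} [Finite V] (G : SimpleGraph V)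
    (hW : ¬ WK V G) (hH : HeavyLe N 4 G) : 0 < (chr G).eval q := by
  refine minor_pos_gen (fun V G => ¬ WK V G ∧ HeavyLe N 4 G) ?_ 4 q (by exact_mod_cast hq.1) ?_ G ⟨hW, hH⟩
  · refine ⟨?_, ?_, ?_⟩
    · rintro V G H h ⟨h1, h2⟩
      exact ⟨mc.edge V G H h h1, heavy_edge N 4 G H h h2⟩
    · rintro V G v ⟨h1, h2⟩
      exact ⟨mc.vertex V G v h1, heavy_vertex N 4 G v h2⟩
    · rintro V G u v huv ⟨h1, h2⟩
      exact ⟨mc.contr V G u v huv h1, heavy_contr N 4 G u v huv h2⟩
  · rintro V _ _ G ⟨h1, h2⟩
    rcases lt_or_ge N (Nat.card V) with h | h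
    · exact Or.inl (heavy_exists N 4 G h h2)
    · exact Or.inr (pos_of_card hq G h1 h)

end Pool.Agent.V11298.BK
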